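import Mathlib

namespace Pool.Agent.Results.MP_4a8fbb_co.Enlarge

open Real goldenRatio Function

abbrev E := EuclideanSpace ℝ (Fin 3)

/-- One legal move: piece i jumps over piece j. -/
def Jump {n : ℕ} (p q : Fin n → E) : Prop :=
  ∃ i j, i ≠ j ∧ q = update p i ((2 : ℝ) • p j - p i)

/-- Legal moves carry the pieces from p onto a similar copy of p with ratio greater than 1. -/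
def CanEnlarge {n : ℕ} (p : Fin n → E) : Prop :=
  ∃ q, Relation.ReflTransGen Jump p q ∧ ∃ (r : ℝ) (σ : E → E), 1 < r ∧
    (∀ x y, dist (σ x) (σ y) = r * dist x y) ∧ Set.range q = σ '' Set.range p

/-- The vertices of the regular icosahedron. -/
noncomputable def ico : Fin 12 → E :=
  ![!₂[0, 1, φ], !₂[φ, 0, 1], !₂[1, φ, 0], !₂[0, 1, -φ], !₂[-φ, 0, 1], !₂[1, -φ, 0], !₂[0, -1,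
   φ], !₂[φ, 0, -1], !₂[-1, φ, 0], !₂[0, -1, -φ], !₂[-φ, 0, -1], !₂[-1, -φ, 0]]

/-- The vertices of the regular dodecahedron. -/
noncomputable def dod : Fin 20 → E :=
  ![!₂[1, 1, 1], !₂[1, 1, -1], !₂[1, -1, 1], !₂[1, -1, -1], !₂[-1, 1, 1], !₂[-1, 1, -1], !₂[-1,
   -1, 1], !₂[-1, -1, -1], !₂[0, φ⁻¹, φ], !₂[φ, 0, φ⁻¹], !₂[φ⁻¹, φ, 0], !₂[0, φ⁻¹, -φ], !₂[-φ, 0,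
   φ⁻¹], !₂[φ⁻¹, -φ, 0], !₂[0, -φ⁻¹, φ], !₂[φ, 0, -φ⁻¹], !₂[-φ⁻¹, φ, 0], !₂[0, -φ⁻¹, -φ], !₂[-φ,
   0, -φ⁻¹], !₂[-φ⁻¹, -φ, 0]]

structure Z6 where
  a : ℤ
  b : ℤ
  c : ℤ
  d : ℤ
  e : ℤ
  f : ℤ
deriving DecidableEq

noncomputable def emb (v : Z6) : E := !₂[v.a + v.b * φ, v.c + v.d * φ, v.e + v.f * φ]

def refl (u v : Z6) : Z6 :=
  ⟨2 * u.a - v.a, 2 * u.b - v.b, 2 * u.c - v.c, 2 * u.d - v.d, 2 * u.e - v.e, 2 * u.f - v.f⟩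

lemma emb_refl (u v : Z6) : emb (refl u v) = (2 : ℝ) • emb u - emb v := by
  ext k
  fin_cases k <;> simp [emb, refl] <;> ring

def big (o v : Z6) : Z6 :=
  ⟨o.a + (v.a - o.a) + 2 * (v.b - o.b), o.b + 2 * (v.a - o.a) + 3 * (v.b - o.b),
   o.c + (v.c - o.c) + 2 * (v.d - o.d), o.d + 2 * (v.c - o.c) + 3 * (v.d - o.d),
   o.e + (v.e - o.e) + 2 * (v.f - o.f), o.f + 2 * (v.e - o.e) + 3 * (v.f - o.f)⟩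

lemma emb_big (o v : Z6) : emb (big o v) = emb o + (2 * φ + 1) • (emb v - emb o) := by
  ext k
  fin_cases k
  · simp [emb, big]
    linear_combination (-2 * ((v.b : ℝ) - o.b)) * goldenRatio_sq
  · simp [emb, big]
    linear_combination (-2 * ((v.d : ℝ) - o.d)) * goldenRatio_sq
  · simp [emb, big]
    linear_combination (-2 * ((v.f : ℝ) - o.f)) * goldenRatio_sq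

def z0 : Z6 := ⟨0, 0, 0, 0, 0, 0⟩

noncomputable def cfg (n : ℕ) (c : List Z6) : Fin n → E := fun i => emb (c.getD i z0)

def check (n : ℕ) : List Z6 → List (ℕ × ℕ × Z6) → List Z6 → Bool
  | c, [], t => decide (c = t)
  | c, s :: l, t => decide (s.1 < n) && decide (s.2.1 < n) && decide (s.1 ≠ s.2.1) &&
      decide (s.2.2 = refl (c.getD s.2.1 z0) (c.getD s.1 z0)) && check n (c.set s.1 s.2.2) l t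

lemma sound (n : ℕ) : ∀ (l : List (ℕ × ℕ × Z6)) (c t : List Z6), c.length = n →
    check n c l t = true → Relation.ReflTransGen Jump (cfg n c) (cfg n t) := by
  intro l
  induction l with
  | nil =>
    intro c t _ h
    simp only [check, decide_eq_true_eq] at h
    rw [h]
  | cons s l ih =>
    intro c t hc h
    simp only [check, Bool.and_eq_true, decide_eq_true_eq] at h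
    obtain ⟨⟨⟨⟨h1, h2⟩, h3⟩, h4⟩, h5⟩ := h
    refine Relation.ReflTransGen.head ?_ (ih _ t (by simp [hc]) h5)
    refine ⟨⟨s.1, h1⟩, ⟨s.2.1, h2⟩, by simpa [Fin.ext_iff] using h3, ?_⟩
    funext k
    by_cases e : k = ⟨s.1, h1⟩
    · subst e
      rw [update_self]
      simp only [cfg]
      rw [← emb_refl, ← h4]
      simp [List.getD_eq_getElem?_getD, hc, h1]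
    · rw [update_of_ne e]
      have : s.1 ≠ k := fun h => e (Fin.ext h.symm)
      simp [cfg, List.getD_eq_getElem?_getD, List.getElem?_set_ne this]

lemma enlarge (n : ℕ) (c : List Z6) (l : List (ℕ × ℕ × Z6)) (o : Z6) (hc : c.length = n)
    (h : check n c l (c.map (big o)) = true) : CanEnlarge (cfg n c) := by
  have hp : 0 < φ := goldenRatio_pos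
  refine ⟨_, sound n l c _ hc h, 2 * φ + 1, fun x => emb o + (2 * φ + 1) • (x - emb o),
    by linarith, ?_, ?_⟩
  · intro x y
    rw [dist_add_left, dist_smul₀, dist_sub_right, Real.norm_of_nonneg (by linarith)]
  · rw [← Set.range_comp]
    congr 1
    funext i
    have := i.2
    simp only [cfg, comp]
    rw [← emb_big]
    simp [List.getD_eq_getElem?_getD, hc]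

def icoZ : List Z6 :=
  [⟨0, 0, 1, 0, 0, 1⟩, ⟨0, 1, 0, 0, 1, 0⟩, ⟨1, 0, 0, 1, 0, 0⟩, ⟨0, 0, 1, 0, 0, -1⟩, ⟨0, -1, 0,
   0, 1, 0⟩, ⟨1, 0, 0, -1, 0, 0⟩, ⟨0, 0, -1, 0, 0, 1⟩, ⟨0, 1, 0, 0, -1, 0⟩, ⟨-1, 0, 0, 1, 0, 0⟩,
   ⟨0, 0, -1, 0, 0, -1⟩, ⟨0, -1, 0, 0, -1, 0⟩, ⟨-1, 0, 0, -1, 0, 0⟩]

def icoS : List (ℕ × ℕ × Z6) :=
  [(11, 0, ⟨1, 0, 2, 1, 0, 2⟩), (11, 10, ⟨-1, -2, -2, -1, -2, -2⟩), (11, 6, ⟨1, 2, 0, 1, 2, 4⟩),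
   (11, 7, ⟨-1, 0, 0, -1, -4, -4⟩), (11, 0, ⟨1, 0, 2, 1, 4, 6⟩), (11, 7, ⟨-1, 2, -2, -1, -6,
   -6⟩), (11, 8, ⟨-1, -2, 2, 3, 6, 6⟩), (11, 3, ⟨1, 2, 0, -3, -6, -8⟩), (9, 0, ⟨0, 0, 3, 0, 0,
   3⟩), (9, 10, ⟨0, -2, -3, 0, -2, -3⟩), (9, 0, ⟨0, 2, 5, 0, 2, 5⟩), (9, 7, ⟨0, 0, -5, 0, -4,
   -5⟩), (9, 2, ⟨2, 0, 5, 2, 4, 5⟩), (9, 0, ⟨-2, 0, -3, -2, -4, -3⟩), (9, 8, ⟨0, 0, 3, 4, 4, 3⟩),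
   (9, 3, ⟨0, 0, -1, -4, -4, -5⟩), (5, 0, ⟨-1, 0, 2, 1, 0, 2⟩), (5, 10, ⟨1, -2, -2, -1, -2, -2⟩),
   (5, 0, ⟨-1, 2, 4, 1, 2, 4⟩), (5, 10, ⟨1, -4, -4, -1, -4, -4⟩), (5, 6, ⟨-1, 4, 2, 1, 4, 6⟩),
   (5, 7, ⟨1, -2, -2, -1, -6, -6⟩), (5, 2, ⟨1, 2, 2, 3, 6, 6⟩), (5, 3, ⟨-1, -2, 0, -3, -6, -8⟩),
   (4, 0, ⟨0, 1, 2, 0, -1, 2⟩), (4, 10, ⟨0, -3, -2, 0, -1, -2⟩), (4, 0, ⟨0, 3, 4, 0, 1, 4⟩), (4,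
   7, ⟨0, -1, -4, 0, -3, -4⟩), (4, 0, ⟨0, 1, 6, 0, 3, 6⟩), (4, 7, ⟨0, 1, -6, 0, -5, -6⟩), (4, 0,
   ⟨0, -1, 8, 0, 5, 8⟩), (4, 7, ⟨0, 3, -8, 0, -7, -8⟩), (4, 2, ⟨2, -3, 8, 2, 7, 8⟩), (4, 0, ⟨-2,
   3, -6, -2, -7, -6⟩), (4, 8, ⟨0, -3, 6, 4, 7, 6⟩), (4, 0, ⟨0, 3, -4, -4, -7, -4⟩), (4, 8, ⟨-2,
   -3, 4, 6, 7, 4⟩), (4, 3, ⟨2, 3, -2, -6, -7, -6⟩), (4, 0, ⟨-2, -3, 4, 6, 7, 8⟩), (4, 3, ⟨2, 3,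
   -2, -6, -7, -10⟩), (1, 0, ⟨0, -1, 2, 0, -1, 2⟩), (1, 10, ⟨0, -1, -2, 0, -1, -2⟩), (1, 0, ⟨0,
   1, 4, 0, 1, 4⟩), (1, 10, ⟨0, -3, -4, 0, -3, -4⟩), (1, 0, ⟨0, 3, 6, 0, 3, 6⟩), (1, 10, ⟨0, -5,
   -6, 0, -5, -6⟩), (1, 0, ⟨0, 5, 8, 0, 5, 8⟩), (1, 7, ⟨0, -3, -8, 0, -7, -8⟩), (1, 2, ⟨2, 3, 8,
   2, 7, 8⟩), (1, 0, ⟨-2, -3, -6, -2, -7, -6⟩), (1, 2, ⟨4, 3, 6, 4, 7, 6⟩), (1, 0, ⟨-4, -3, -4,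
   -4, -7, -4⟩), (1, 8, ⟨2, 3, 4, 6, 7, 4⟩), (1, 3, ⟨-2, -3, -2, -6, -7, -6⟩), (1, 0, ⟨2, 3, 4,
   6, 7, 8⟩), (1, 3, ⟨-2, -3, -2, -6, -7, -10⟩), (2, 0, ⟨-1, 0, 2, -1, 0, 2⟩), (2, 7, ⟨1, 2, -2,
   1, -2, -2⟩), (3, 0, ⟨0, 0, 1, 0, 0, 3⟩), (3, 7, ⟨0, 2, -1, 0, -2, -3⟩), (2, 6, ⟨-1, -2, 0, -1,
   2, 4⟩), (2, 0, ⟨1, 2, 2, 1, -2, -2⟩), (8, 6, ⟨1, 0, -2, -1, 0, 2⟩), (8, 0, ⟨-1, 0, 4, 1, 0,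
   0⟩), (3, 6, ⟨0, -2, -1, 0, 2, 5⟩), (3, 0, ⟨0, 2, 3, 0, -2, -3⟩), (8, 0, ⟨1, 0, -2, -1, 0, 2⟩),
   (8, 10, ⟨-1, -2, 2, 1, -2, -2⟩), (3, 0, ⟨0, -2, -1, 0, 2, 5⟩), (3, 10, ⟨0, 0, 1, 0, -4, -5⟩),
   (10, 0, ⟨0, 1, 2, 0, 1, 2⟩), (6, 0, ⟨0, 0, 3, 0, 0, 1⟩), (7, 0, ⟨0, -1, 2, 0, 1, 2⟩), (10, 2,
   ⟨2, 3, 2, 2, -5, -6⟩), (10, 0, ⟨-2, -3, 0, -2, 5, 8⟩), (6, 2, ⟨2, 4, 1, 2, -4, -5⟩), (6, 0,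
   ⟨-2, -4, 1, -2, 4, 7⟩), (6, 8, ⟨0, 0, 3, 4, -8, -11⟩), (6, 0, ⟨0, 0, -1, -4, 8, 13⟩), (7, 8,
   ⟨-2, -3, 2, 2, -5, -6⟩), (7, 0, ⟨2, 3, 0, -2, 5, 8⟩), (10, 0, ⟨2, 3, 2, 2, -5, -6⟩), (10, 3,
   ⟨-2, -3, 0, -2, -3, -4⟩), (6, 0, ⟨0, 0, 3, 4, -8, -11⟩), (6, 3, ⟨0, 0, -1, -4, 0, 1⟩), (7, 0,
   ⟨-2, -3, 2, 2, -5, -6⟩), (7, 3, ⟨2, 3, 0, -2, -3, -4⟩), (11, 2, ⟨1, 2, 4, 5, 2, 4⟩), (11, 0,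
   ⟨-1, -2, -2, -5, -2, -2⟩), (5, 8, ⟨-1, -2, 4, 5, 2, 4⟩), (5, 0, ⟨1, 2, -2, -5, -2, -2⟩), (4,
   7, ⟨2, 3, 2, 2, 1, 2⟩), (4, 0, ⟨-2, -3, 0, -2, -1, 0⟩), (1, 10, ⟨-2, -3, 2, 2, 1, 2⟩), (1, 0,
   ⟨2, 3, 0, -2, -1, 0⟩)]

lemma ico_eq : ico = cfg 12 icoZ := by
  have h : φ⁻¹ = φ - 1 := by
    rw [inv_goldenRatio]
    linarith [goldenRatio_add_goldenConj]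
  funext i
  ext k
  fin_cases i <;> fin_cases k <;> simp [ico, cfg, icoZ, emb, h] <;> ring

def dodZ : List Z6 :=
  [⟨1, 0, 1, 0, 1, 0⟩, ⟨1, 0, 1, 0, -1, 0⟩, ⟨1, 0, -1, 0, 1, 0⟩, ⟨1, 0, -1, 0, -1, 0⟩, ⟨-1, 0,
   1, 0, 1, 0⟩, ⟨-1, 0, 1, 0, -1, 0⟩, ⟨-1, 0, -1, 0, 1, 0⟩, ⟨-1, 0, -1, 0, -1, 0⟩, ⟨0, 0, -1, 1,
   0, 1⟩, ⟨0, 1, 0, 0, -1, 1⟩, ⟨-1, 1, 0, 1, 0, 0⟩, ⟨0, 0, -1, 1, 0, -1⟩, ⟨0, -1, 0, 0, -1, 1⟩,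
   ⟨-1, 1, 0, -1, 0, 0⟩, ⟨0, 0, 1, -1, 0, 1⟩, ⟨0, 1, 0, 0, 1, -1⟩, ⟨1, -1, 0, 1, 0, 0⟩, ⟨0, 0, 1,
   -1, 0, -1⟩, ⟨0, -1, 0, 0, 1, -1⟩, ⟨1, -1, 0, -1, 0, 0⟩]

def dodS : List (ℕ × ℕ × Z6) :=
  [(18, 0, ⟨2, 1, 2, 0, 1, 1⟩), (18, 10, ⟨-4, 1, -2, 2, -1, -1⟩), (18, 0, ⟨6, -1, 4, -2, 3, 1⟩),
   (18, 13, ⟨-8, 3, -4, 0, -3, -1⟩), (18, 4, ⟨6, -3, 6, 0, 5, 1⟩), (18, 19, ⟨-4, 1, -6, -2, -5,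
   -1⟩), (18, 0, ⟨6, -1, 8, 2, 7, 1⟩), (18, 19, ⟨-4, -1, -8, -4, -7, -1⟩), (18, 8, ⟨4, 1, 6, 6,
   7, 3⟩), (18, 0, ⟨-2, -1, -4, -6, -5, -3⟩), (18, 9, ⟨2, 3, 4, 6, 3, 5⟩), (18, 0, ⟨0, -3, -2,
   -6, -1, -5⟩), (17, 0, ⟨2, 0, 1, 1, 2, 1⟩), (17, 4, ⟨-4, 0, 1, -1, 0, -1⟩), (17, 0, ⟨6, 0, 1,
   1, 2, 1⟩), (17, 19, ⟨-4, -2, -1, -3, -2, -1⟩), (17, 0, ⟨6, 2, 3, 3, 4, 1⟩), (17, 19, ⟨-4, -4,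
   -3, -5, -4, -1⟩), (17, 9, ⟨4, 6, 3, 5, 2, 3⟩), (17, 0, ⟨-2, -6, -1, -5, 0, -3⟩), (16, 0, ⟨1,
   1, 2, -1, 2, 0⟩), (16, 10, ⟨-3, 1, -2, 3, -2, 0⟩), (16, 0, ⟨5, -1, 4, -3, 4, 0⟩), (16, 13,
   ⟨-7, 3, -4, 1, -4, 0⟩), (16, 0, ⟨9, -3, 6, -1, 6, 0⟩), (16, 13, ⟨-11, 5, -6, -1, -6, 0⟩), (16,
   4, ⟨9, -5, 8, 1, 8, 0⟩), (16, 19, ⟨-7, 3, -8, -3, -8, 0⟩), (16, 0, ⟨9, -3, 10, 3, 10, 0⟩),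
   (16, 19, ⟨-7, 1, -10, -5, -10, 0⟩), (16, 0, ⟨9, -1, 12, 5, 12, 0⟩), (16, 19, ⟨-7, -1, -12, -7,
   -12, 0⟩), (16, 8, ⟨7, 1, 10, 9, 12, 2⟩), (16, 0, ⟨-5, -1, -8, -9, -10, -2⟩), (16, 9, ⟨5, 3, 8,
   9, 8, 4⟩), (16, 0, ⟨-3, -3, -6, -9, -6, -4⟩), (16, 9, ⟨3, 5, 6, 9, 4, 6⟩), (16, 0, ⟨-1, -5,
   -4, -9, -2, -6⟩), (15, 0, ⟨2, -1, 2, 0, 1, 1⟩), (15, 10, ⟨-4, 3, -2, 2, -1, -1⟩), (15, 0, ⟨6,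
   -3, 4, -2, 3, 1⟩), (15, 19, ⟨-4, 1, -4, 0, -3, -1⟩), (15, 0, ⟨6, -1, 6, 0, 5, 1⟩), (15, 19,
   ⟨-4, -1, -6, -2, -5, -1⟩), (15, 0, ⟨6, 1, 8, 2, 7, 1⟩), (15, 19, ⟨-4, -3, -8, -4, -7, -1⟩),
   (15, 8, ⟨4, 3, 6, 6, 7, 3⟩), (15, 0, ⟨-2, -3, -4, -6, -5, -3⟩), (15, 9, ⟨2, 5, 4, 6, 3, 5⟩),
   (15, 0, ⟨0, -5, -2, -6, -1, -5⟩), (14, 0, ⟨2, 0, 1, 1, 2, -1⟩), (14, 10, ⟨-4, 2, -1, 1, -2,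
   1⟩), (14, 0, ⟨6, -2, 3, -1, 4, -1⟩), (14, 10, ⟨-8, 4, -3, 3, -4, 1⟩), (14, 13, ⟨6, -2, 3, -5,
   4, -1⟩), (14, 19, ⟨-4, 0, -3, 3, -4, 1⟩), (14, 0, ⟨6, 0, 5, -3, 6, -1⟩), (14, 19, ⟨-4, -2, -5,
   1, -6, 1⟩), (14, 8, ⟨4, 2, 3, 1, 6, 1⟩), (14, 0, ⟨-2, -2, -1, -1, -4, -1⟩), (14, 9, ⟨2, 4, 1,
   1, 2, 3⟩), (14, 0, ⟨0, -4, 1, -1, 0, -3⟩), (12, 0, ⟨2, 1, 2, 0, 3, -1⟩), (12, 13, ⟨-4, 1, -2,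
   -2, -3, 1⟩), (12, 0, ⟨6, -1, 4, 2, 5, -1⟩), (12, 13, ⟨-8, 3, -4, -4, -5, 1⟩), (12, 0, ⟨10, -3,
   6, 4, 7, -1⟩), (12, 13, ⟨-12, 5, -6, -6, -7, 1⟩), (12, 4, ⟨10, -5, 8, 6, 9, -1⟩), (12, 19,
   ⟨-8, 3, -8, -8, -9, 1⟩), (12, 0, ⟨10, -3, 10, 8, 11, -1⟩), (12, 19, ⟨-8, 1, -10, -10, -11,
   1⟩), (12, 0, ⟨10, -1, 12, 10, 13, -1⟩), (12, 19, ⟨-8, -1, -12, -12, -13, 1⟩), (12, 9, ⟨8, 3,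
   12, 12, 11, 1⟩), (12, 0, ⟨-6, -3, -10, -12, -9, -1⟩), (12, 9, ⟨6, 5, 10, 12, 7, 3⟩), (12, 0,
   ⟨-4, -5, -8, -12, -5, -3⟩), (12, 9, ⟨4, 7, 8, 12, 3, 5⟩), (12, 0, ⟨-2, -7, -6, -12, -1, -5⟩),
   (11, 10, ⟨-2, 2, 1, 1, 0, 1⟩), (11, 13, ⟨0, 0, -1, -3, 0, -1⟩), (11, 0, ⟨2, 0, 3, 3, 2, 1⟩),
   (11, 4, ⟨-4, 0, -1, -3, 0, -1⟩), (11, 0, ⟨6, 0, 3, 3, 2, 1⟩), (11, 19, ⟨-4, -2, -3, -5, -2,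
   -1⟩), (11, 0, ⟨6, 2, 5, 5, 4, 1⟩), (11, 19, ⟨-4, -4, -5, -7, -4, -1⟩), (11, 9, ⟨4, 6, 5, 7, 2,
   3⟩), (11, 0, ⟨-2, -6, -3, -7, 0, -3⟩), (7, 0, ⟨3, 0, 3, 0, 3, 0⟩), (7, 10, ⟨-5, 2, -3, 2, -3,
   0⟩), (7, 0, ⟨7, -2, 5, -2, 5, 0⟩), (7, 19, ⟨-5, 0, -5, 0, -5, 0⟩), (7, 0, ⟨7, 0, 7, 0, 7, 0⟩),
   (7, 19, ⟨-5, -2, -7, -2, -7, 0⟩), (7, 8, ⟨5, 2, 5, 4, 7, 2⟩), (7, 0, ⟨-3, -2, -3, -4, -5,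
   -2⟩), (7, 9, ⟨3, 4, 3, 4, 3, 4⟩), (7, 0, ⟨-1, -4, -1, -4, -1, -4⟩), (6, 10, ⟨-1, 2, 1, 2, -1,
   0⟩), (6, 13, ⟨-1, 0, -1, -4, 1, 0⟩), (6, 0, ⟨3, 0, 3, 4, 1, 0⟩), (6, 13, ⟨-5, 2, -3, -6, -1,
   0⟩), (6, 4, ⟨3, -2, 5, 6, 3, 0⟩), (6, 19, ⟨-1, 0, -5, -8, -3, 0⟩), (6, 9, ⟨1, 2, 5, 8, 1, 2⟩),
   (6, 0, ⟨1, -2, -3, -8, 1, -2⟩), (5, 0, ⟨3, 0, 1, 0, 3, 0⟩), (5, 13, ⟨-5, 2, -1, -2, -3, 0⟩),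
   (5, 0, ⟨7, -2, 3, 2, 5, 0⟩), (5, 13, ⟨-9, 4, -3, -4, -5, 0⟩), (5, 0, ⟨11, -4, 5, 4, 7, 0⟩),
   (5, 19, ⟨-9, 2, -5, -6, -7, 0⟩), (5, 0, ⟨11, -2, 7, 6, 9, 0⟩), (5, 19, ⟨-9, 0, -7, -8, -9,
   0⟩), (5, 0, ⟨11, 0, 9, 8, 11, 0⟩), (5, 19, ⟨-9, -2, -9, -10, -11, 0⟩), (5, 0, ⟨11, 2, 11, 10,
   13, 0⟩), (5, 19, ⟨-9, -4, -11, -12, -13, 0⟩), (5, 9, ⟨9, 6, 11, 12, 11, 2⟩), (5, 0, ⟨-7, -6,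
   -9, -12, -9, -2⟩), (5, 9, ⟨7, 8, 9, 12, 7, 4⟩), (5, 0, ⟨-5, -8, -7, -12, -5, -4⟩), (5, 9, ⟨5,
   10, 7, 12, 3, 6⟩), (5, 0, ⟨-3, -10, -5, -12, -1, -6⟩), (3, 0, ⟨1, 0, 3, 0, 3, 0⟩), (3, 10,
   ⟨-3, 2, -3, 2, -3, 0⟩), (3, 13, ⟨1, 0, 3, -4, 3, 0⟩), (3, 4, ⟨-3, 0, -1, 4, -1, 0⟩), (3, 0,
   ⟨5, 0, 3, -4, 3, 0⟩), (3, 4, ⟨-7, 0, -1, 4, -1, 0⟩), (3, 0, ⟨9, 0, 3, -4, 3, 0⟩), (3, 19, ⟨-7,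
   -2, -3, 2, -3, 0⟩), (3, 0, ⟨9, 2, 5, -2, 5, 0⟩), (3, 19, ⟨-7, -4, -5, 0, -5, 0⟩), (3, 0, ⟨9,
   4, 7, 0, 7, 0⟩), (3, 19, ⟨-7, -6, -7, -2, -7, 0⟩), (3, 8, ⟨7, 6, 5, 4, 7, 2⟩), (3, 0, ⟨-5, -6,
   -3, -4, -5, -2⟩), (3, 9, ⟨5, 8, 3, 4, 3, 4⟩), (3, 0, ⟨-3, -8, -1, -4, -1, -4⟩), (2, 10, ⟨-3,
   2, 1, 2, -1, 0⟩), (2, 13, ⟨1, 0, -1, -4, 1, 0⟩), (2, 0, ⟨1, 0, 3, 4, 1, 0⟩), (2, 4, ⟨-3, 0,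
   -1, -4, 1, 0⟩), (2, 0, ⟨5, 0, 3, 4, 1, 0⟩), (2, 19, ⟨-3, -2, -3, -6, -1, 0⟩), (2, 0, ⟨5, 2, 5,
   6, 3, 0⟩), (2, 19, ⟨-3, -4, -5, -8, -3, 0⟩), (2, 9, ⟨3, 6, 5, 8, 1, 2⟩), (2, 0, ⟨-1, -6, -3,
   -8, 1, -2⟩), (1, 0, ⟨1, 0, 1, 0, 3, 0⟩), (1, 13, ⟨-3, 2, -1, -2, -3, 0⟩), (1, 0, ⟨5, -2, 3, 2,
   5, 0⟩), (1, 13, ⟨-7, 4, -3, -4, -5, 0⟩), (1, 0, ⟨9, -4, 5, 4, 7, 0⟩), (1, 13, ⟨-11, 6, -5, -6,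
   -7, 0⟩), (1, 4, ⟨9, -6, 7, 6, 9, 0⟩), (1, 19, ⟨-7, 4, -7, -8, -9, 0⟩), (1, 0, ⟨9, -4, 9, 8,
   11, 0⟩), (1, 19, ⟨-7, 2, -9, -10, -11, 0⟩), (1, 0, ⟨9, -2, 11, 10, 13, 0⟩), (1, 19, ⟨-7, 0,
   -11, -12, -13, 0⟩), (1, 9, ⟨7, 2, 11, 12, 11, 2⟩), (1, 0, ⟨-5, -2, -9, -12, -9, -2⟩), (1, 9,
   ⟨5, 4, 9, 12, 7, 4⟩), (1, 0, ⟨-3, -4, -7, -12, -5, -4⟩), (1, 9, ⟨3, 6, 7, 12, 3, 6⟩), (1, 0,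
   ⟨-1, -6, -5, -12, -1, -6⟩), (19, 0, ⟨1, 1, 2, 1, 2, 0⟩), (19, 4, ⟨-3, -1, 0, -1, 0, 0⟩), (8,
   0, ⟨2, 0, 3, -1, 2, -1⟩), (8, 4, ⟨-4, 0, -1, 1, 0, 1⟩), (9, 0, ⟨2, -1, 2, 0, 3, -1⟩), (9, 4,
   ⟨-4, 1, 0, 0, -1, 1⟩), (4, 13, ⟨-1, 2, -1, -2, -1, 0⟩), (4, 0, ⟨3, -2, 3, 2, 3, 0⟩), (19, 13,
   ⟨1, 3, 0, -1, 0, 0⟩), (19, 0, ⟨1, -3, 2, 1, 2, 0⟩), (9, 13, ⟨2, 1, 0, -2, 1, -1⟩), (9, 0, ⟨0,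
   -1, 2, 2, 1, 1⟩), (8, 10, ⟨2, 2, 1, 1, 0, -1⟩), (8, 0, ⟨0, -2, 1, -1, 2, 1⟩), (10, 0, ⟨3, -1,
   2, -1, 2, 0⟩), (13, 0, ⟨3, -1, 2, 1, 2, 0⟩), (10, 13, ⟨3, -1, 2, 3, 2, 0⟩), (10, 0, ⟨-1, 1, 0,
   -3, 0, 0⟩), (4, 0, ⟨-1, 2, -1, -2, -1, 0⟩), (13, 0, ⟨-1, 1, 0, -1, 0, 0⟩), (13, 4, ⟨-1, 3, -2,
   -3, -2, 0⟩), (19, 0, ⟨1, 3, 0, -1, 0, 0⟩), (10, 19, ⟨3, 5, 0, 1, 0, 0⟩), (10, 0, ⟨-1, -5, 2,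
   -1, 2, 0⟩), (13, 19, ⟨3, 3, 2, 1, 2, 0⟩), (13, 0, ⟨-1, -3, 0, -1, 0, 0⟩), (4, 19, ⟨3, 4, 1, 0,
   1, 0⟩), (4, 0, ⟨-1, -4, 1, 0, 1, 0⟩), (19, 0, ⟨1, -3, 2, 1, 2, 0⟩), (19, 4, ⟨-3, -5, 0, -1, 0,
   0⟩), (10, 8, ⟨1, 1, 0, -1, 2, 2⟩), (10, 0, ⟨1, -1, 2, 1, 0, -2⟩), (9, 0, ⟨2, 1, 0, -2, 1,
   -1⟩), (13, 0, ⟨3, 3, 2, 1, 2, 0⟩), (13, 9, ⟨1, -1, -2, -5, 0, -2⟩), (19, 0, ⟨5, 5, 2, 1, 2,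
   0⟩), (19, 9, ⟨-1, -3, -2, -5, 0, -2⟩), (18, 9, ⟨4, 5, 2, 2, 3, 3⟩), (18, 0, ⟨-2, -5, 0, -2,
   -1, -3⟩), (17, 8, ⟨2, 2, 3, 3, 4, 5⟩), (17, 0, ⟨0, -2, -1, -3, -2, -5⟩), (16, 13, ⟨3, 3, 0,
   -1, 2, 2⟩), (16, 0, ⟨-1, -3, 2, 1, 0, -2⟩), (15, 4, ⟨-2, -3, 4, 6, 3, 5⟩), (15, 0, ⟨4, 3, -2,
   -6, -1, -5⟩), (15, 9, ⟨0, -1, 2, 2, 3, 3⟩), (15, 0, ⟨2, 1, 0, -2, -1, -3⟩), (14, 10, ⟨2, 2, 3,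
   3, 0, -1⟩), (14, 0, ⟨0, -2, -1, -3, 2, 1⟩), (12, 13, ⟨4, 5, 2, 2, 1, 1⟩), (12, 0, ⟨-2, -5, 0,
   -2, 1, -1⟩), (11, 0, ⟨4, 6, 5, 7, 2, 3⟩), (11, 10, ⟨-2, -8, -1, -5, -2, -7⟩), (11, 4, ⟨0, 0,
   3, 5, 4, 7⟩), (11, 0, ⟨2, 0, -1, -5, -2, -7⟩), (11, 9, ⟨2, 2, 1, 1, 4, 5⟩), (11, 0, ⟨0, -2, 1,
   -1, -2, -5⟩), (6, 9, ⟨3, 4, 3, 4, 1, 0⟩), (6, 0, ⟨-1, -4, -1, -4, 1, 0⟩), (5, 13, ⟨5, 8, 1, 2,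
   1, 2⟩), (5, 0, ⟨-3, -8, 1, -2, 1, -2⟩), (5, 8, ⟨3, 4, 1, 0, 3, 4⟩), (5, 0, ⟨-1, -4, 1, 0, -1,
   -4⟩), (3, 4, ⟨1, 0, 3, 4, 3, 4⟩), (3, 0, ⟨1, 0, -1, -4, -1, -4⟩), (2, 4, ⟨-1, -2, 5, 8, 1,
   2⟩), (2, 0, ⟨3, 2, -3, -8, 1, -2⟩), (2, 9, ⟨1, 0, 3, 4, 1, 0⟩), (2, 0, ⟨1, 0, -1, -4, 1, 0⟩),
   (1, 13, ⟨3, 4, 1, 2, 1, 2⟩), (1, 0, ⟨-1, -4, 1, -2, 1, -2⟩), (1, 8, ⟨1, 0, 1, 0, 3, 4⟩), (1,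
   0, ⟨1, 0, 1, 0, -1, -4⟩)]

lemma dod_eq : dod = cfg 20 dodZ := by
  have h : φ⁻¹ = φ - 1 := by
    rw [inv_goldenRatio]
    linarith [goldenRatio_add_goldenConj]
  funext i
  ext k
  fin_cases i <;> fin_cases k <;> simp [dod, cfg, dodZ, emb, h] <;> ring

theorem result : CanEnlarge dod ∧ CanEnlarge ico := by
  rw [dod_eq, ico_eq]
  exact ⟨enlarge 20 dodZ dodS ⟨1, 0, 1, 0, 1, 0⟩ rfl (by decide +kernel),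
    enlarge 12 icoZ icoS ⟨0, 0, 1, 0, 0, 1⟩ rfl (by decide +kernel)⟩

end Pool.Agent.Results.MP_4a8fbb_co.Enlarge
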